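import Pool.Agent.H8.JS.Targets

/-!
# The rest of a row
-/

set_option autoImplicit false

namespace Pool.Agent.H90.JS

open Pool.Agent.H8.JS

section
variable {T : Type} (U : Bool → Bool → Bool → Bool → T → Prop) (Hh Vv : T → T → Prop)

private theorem c2_cell (fr lr : Bool) (w : ℕ → Option T) (o : Option T) (u u' : ℕ → T) (t : T)
    (k a : ℕ) (ht : u k = t) (hu : ∀ p, k < p → u p = u' p) :
    (∀ p, k ≤ p → p < k + (a + 1) → CellC U Hh Vv fr lr w o u k (a + 1) p) ↔
      ((U (decide (o = none)) (decide (a = 0)) fr lr t ∧ (∀ v, o = some v → Hh v t) ∧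
        (fr = false → ∃ v, w k = some v ∧ Vv v t)) ∧
        ∀ p, k + 1 ≤ p → p < k + 1 + a →
          CellC U Hh Vv fr lr (fun p' => if p' = k then some t else w p') (some t) u' (k + 1) a p) := by
  have key : ∀ p, k + 1 ≤ p → (CellC U Hh Vv fr lr w o u k (a + 1) p ↔
      CellC U Hh Vv fr lr (fun p' => if p' = k then some t else w p') (some t) u' (k + 1) a p) := by
    intro p hp
    have e1 : pv o u k p = pv (some t) u' (k + 1) p := by
      unfold pv
      rw [if_neg (by omega : ¬ p = k)]
      by_cases h : p = k + 1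
      · rw [if_pos h, h, Nat.add_sub_cancel, ht]
      · rw [if_neg h, hu _ (by omega : k < p - 1)]
    have e2 : u p = u' p := hu p (by omega)
    have e3 : (p + 1 = k + (a + 1)) = (p + 1 = k + 1 + a) := by
      apply propext
      constructor <;> intro h <;> omega
    have e4 : ¬ p = k := by omega
    unfold CellC
    simp only [e1, e2, e3, if_neg e4]
  have key0 : CellC U Hh Vv fr lr w o u k (a + 1) k ↔
      (U (decide (o = none)) (decide (a = 0)) fr lr t ∧ (∀ v, o = some v → Hh v t) ∧
        (fr = false → ∃ v, w k = some v ∧ Vv v t)) := by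
    have e1 : pv o u k k = o := by
      unfold pv
      rw [if_pos rfl]
    have e3 : (k + 1 = k + (a + 1)) = (a = 0) := by
      apply propext
      constructor <;> intro h <;> omega
    unfold CellC
    simp only [e1, e3, ht]
  constructor
  · intro h
    exact ⟨key0.1 (h k le_rfl (by omega)), fun p h1 h2 =>
      (key p h1).1 (h p (by omega) (by omega))⟩
  · rintro ⟨h0, h1⟩ p hp1 hp2
    by_cases hpk : p = k
    · rw [hpk]
      exact key0.2 h0
    · exact (key p (by omega)).2 (h1 p (by omega) (by omega))

private theorem c2_tape (w : ℕ → Option T) (u u' : ℕ → T) (t : T)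
    (k a : ℕ) (ht : u k = t) (hu : ∀ p, k < p → u p = u' p) :
    (fun p => if k ≤ p ∧ p < k + (a + 1) then some (u p) else w p) =
      fun p => if k + 1 ≤ p ∧ p < k + 1 + a then some (u' p) else
        (if p = k then some t else w p) := by
  funext p
  by_cases hpk : p = k
  · rw [if_pos (by omega), if_neg (by omega), if_pos hpk, hpk, ht]
  · by_cases h : k + 1 ≤ p ∧ p < k + 1 + a
    · rw [if_pos h, if_pos (by omega), hu p (by omega)]
    · rw [if_neg h, if_neg (by omega), if_neg hpk]

end

theorem pf_c2 (hC1 : J_C1) : J_C2 := by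
  intro r T U Hh Vv x i c y fr lr a
  induction a with
  | zero =>
    intro k w o hT
    have h1 : Ev (S5 (r := r) U Hh Vv x) A5 ⟨.cel fr lr o, i, c, 0, 0, k, y, k, w⟩
        ⟨.bck, i, c, 0, 0, k, y, k, w⟩ 1 := by
      apply Ev.step
      · intro k'
        simp [S5]
      · simp [A5]
    rw [h1.1]
    have e1 : ∀ u : ℕ → T, (fun p => if k ≤ p ∧ p < k + 0 then some (u p) else w p) = w := by
      intro u
      funext p
      rw [if_neg (by omega)]
    constructor
    · intro h
      refine ⟨fun _ => Classical.choice hT, fun p h1 h2 => absurd h2 (by omega), ?_⟩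
      rw [e1]
      exact h
    · rintro ⟨u, _, h⟩
      rw [e1] at h
      exact h
  | succ a ih =>
    intro k w o hT
    rw [(hC1 r T U Hh Vv x i c a k y k w fr lr o).1]
    have e0 : k + 1 + a = k + (a + 1) := by omega
    constructor
    · rintro ⟨t, h1, h2⟩
      rw [ih (k + 1) _ (some t) hT] at h2
      obtain ⟨u', h3, h4⟩ := h2
      have ht : (fun p => if p = k then t else u' p) k = t := if_pos rfl
      have hu : ∀ p, k < p → (fun p => if p = k then t else u' p) p = u' p := by
        intro p hp
        exact if_neg (by omega)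
      refine ⟨fun p => if p = k then t else u' p,
        (c2_cell U Hh Vv fr lr w o _ u' t k a ht hu).2 ⟨h1, h3⟩, ?_⟩
      rw [c2_tape w _ u' t k a ht hu, ← e0]
      exact h4
    · rintro ⟨u, h1, h2⟩
      have h3 := (c2_cell U Hh Vv fr lr w o u u (u k) k a rfl (fun _ _ => rfl)).1 h1
      refine ⟨u k, h3.1, ?_⟩
      rw [ih (k + 1) _ (some (u k)) hT]
      refine ⟨u, h3.2, ?_⟩
      rw [c2_tape w u u (u k) k a rfl (fun _ _ => rfl), ← e0] at h2
      exact h2

end Pool.Agent.H90.JS
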