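import Pool.Agent.H8.JS.Targets
import Pool.Agent.H69.Mt.Norm

/-!
# From languages to spectra
-/

set_option autoImplicit false

namespace Pool.Agent.H90.JS

open Pool.Agent.H69.Sp Pool.Agent.H69.Mt Pool.Agent.H8.JS

/-- a finite type is numbered -/
private theorem ja_num (A : Type) (hA : Finite A) :
    ∃ (f : A → ℕ) (B : ℕ), Function.Injective f ∧ ∀ a, f a < B := by
  obtain ⟨n, ⟨e⟩⟩ := Finite.exists_equiv_fin A
  exact ⟨fun a => (e a).1, n, fun a b h => e.injective (Fin.ext h), fun a => (e a).2⟩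

theorem pf_ja (hNU : J_NU) (hE1 : J_E1) (hE2 : J_E2) : J_JA := by
  intro L hL
  obtain ⟨c, hc, M, hM⟩ := hL
  obtain ⟨-, -, hNU3, hNU4, hNU5⟩ := hNU
  have hQ := M.finQ
  have hG := M.finΓ
  obtain ⟨eq, B1, heq, hB1⟩ := ja_num M.Q M.finQ
  obtain ⟨es, B2, hes, hB2⟩ := ja_num (Sym M.Γ) inferInstance
  refine wrapT (P := fun U E m => EncP M eq es U E m) (hE2 M eq es) ?_ (c + B1 + B2 + 2) ?_
  · rintro ⟨x, -, hx⟩
    have h1 := (hNU3 x).1
    have h2 : 0 < 2 ^ x.length := Nat.two_pow_pos _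
    omega
  · intro m hm
    obtain ⟨x, hx⟩ := hNU5 m (by omega)
    have hs : c + B1 + B2 + 2 < 2 ^ (c + B1 + B2 + 2) := Nat.lt_two_pow_self
    generalize hse : c + B1 + B2 + 2 = s at hs ⊢
    have hU1 : m ^ s < (m ^ 2 ^ s) ^ 8 := by
      calc m ^ s < m ^ (2 ^ s) := Nat.pow_lt_pow_right (by omega) hs
        _ ≤ (m ^ 2 ^ s) ^ 8 := Nat.le_self_pow (by norm_num) _
    have hU2 : s < (m ^ 2 ^ s) ^ 8 := by
      calc s < 2 ^ s := hs
        _ ≤ m ^ s := Nat.pow_le_pow_left hm s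
        _ < _ := hU1
    have hU3 : m < (m ^ 2 ^ s) ^ 8 := by
      calc m = m ^ 1 := (pow_one m).symm
        _ ≤ m ^ s := Nat.pow_le_pow_right (by omega) (by omega)
        _ < _ := hU1
    have hU4 : m ^ c < (m ^ 2 ^ s) ^ 8 := by
      calc m ^ c ≤ m ^ s := Nat.pow_le_pow_right (by omega) (by omega)
        _ < _ := hU1
    have h1 := hE1 M eq es x ((m ^ 2 ^ s) ^ 8) heq hes (fun q => by have := hB1 q; omega)
      (fun a => by have := hB2 a; omega) (by rw [hx]; exact hU3)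
    rw [hx] at h1
    rw [h1]
    have h2 : m ∈ num '' L ↔ x ∈ L := by
      constructor
      · rintro ⟨y, hy, hym⟩
        have : y = x := hNU4 y x (by rw [hym, hx])
        rw [← this]
        exact hy
      · intro h
        exact ⟨x, h, hx⟩
    rw [h2, (hM x).2]
    constructor
    · rintro ⟨l, f, h3, h4⟩
      refine ⟨l, ?_, f, h3, h4⟩
      have h5 := (hM x).1 l f h3
      have h6 : 2 ^ (c * x.length) ≤ m ^ c := by
        rw [mul_comm, pow_mul]
        exact Nat.pow_le_pow_left (by rw [← hx]; exact (hNU3 x).1) c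
      simp only at h5
      omega
    · rintro ⟨l, -, f, h3, h4⟩
      exact ⟨l, f, h3, h4⟩

end Pool.Agent.H90.JS
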