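import Pool.Agent.H8.JS.Targets

/-!
# One multiplication of the machine with counters
-/

set_option autoImplicit false

namespace Pool.Agent.H90.JS

open Pool.Agent.H8.JS

section
variable {r : ℕ} {T : Type} (U : Bool → Bool → Bool → Bool → T → Prop) (Hh Vv : T → T → Prop)
  (x : List Bool)

/-- the first addition loop -/
private theorem m1_ad1 (j : Fin (r + 1)) (i p y h : ℕ) (w : ℕ → Option T) :
    ∀ c d s : ℕ, Ev (S5 U Hh Vv x) A5 ⟨.ad1 j, i, c, d, p, s, y, h, w⟩
      ⟨.ad1 j, i, 0, d + c, p, s + c, y, h, w⟩ c := by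
  intro c
  induction c with
  | zero => intro d s; exact Ev.refl _
  | succ c ih =>
    intro d s
    have h1 : Ev (S5 U Hh Vv x) A5 ⟨.ad1 j, i, c + 1, d, p, s, y, h, w⟩
        ⟨.ad1 j, i, c, d + 1, p, s + 1, y, h, w⟩ 1 := by
      apply Ev.step
      · intro k
        simp [S5]
      · simp [A5]
    have h2 := h1.trans (ih (d + 1) (s + 1))
    have e1 : d + 1 + c = d + (c + 1) := by omega
    have e2 : s + 1 + c = s + (c + 1) := by omega
    rw [e1, e2] at h2
    exact h2.mono (by omega)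

/-- the second addition loop -/
private theorem m1_ad2 (j : Fin (r + 1)) (i p s y h : ℕ) (w : ℕ → Option T) :
    ∀ d c : ℕ, Ev (S5 U Hh Vv x) A5 ⟨.ad2 j, i, c, d, p, s, y, h, w⟩
      ⟨.ad2 j, i, c + d, 0, p, s, y, h, w⟩ d := by
  intro d
  induction d with
  | zero => intro c; exact Ev.refl _
  | succ d ih =>
    intro c
    have h1 : Ev (S5 U Hh Vv x) A5 ⟨.ad2 j, i, c, d + 1, p, s, y, h, w⟩
        ⟨.ad2 j, i, c + 1, d, p, s, y, h, w⟩ 1 := by
      apply Ev.step
      · intro k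
        simp [S5]
      · simp [A5]
    have h2 := h1.trans (ih (c + 1))
    have e1 : c + 1 + d = c + (d + 1) := by omega
    rw [e1] at h2
    exact h2.mono (by omega)

/-- the moving loop -/
private theorem m1_mv (j : Fin (r + 1)) (i c d y h : ℕ) (w : ℕ → Option T) :
    ∀ s p : ℕ, Ev (S5 U Hh Vv x) A5 ⟨.mv j, i, c, d, p, s, y, h, w⟩
      ⟨.mv j, i, c, d, p + s, 0, y, h, w⟩ s := by
  intro s
  induction s with
  | zero => intro p; exact Ev.refl _
  | succ s ih =>
    intro p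
    have h1 : Ev (S5 U Hh Vv x) A5 ⟨.mv j, i, c, d, p, s + 1, y, h, w⟩
        ⟨.mv j, i, c, d, p + 1, s, y, h, w⟩ 1 := by
      apply Ev.step
      · intro k
        simp [S5]
      · simp [A5]
    have h2 := h1.trans (ih (p + 1))
    have e1 : p + 1 + s = p + (s + 1) := by omega
    rw [e1] at h2
    exact h2.mono (by omega)

/-- one round of the multiplication -/
private theorem m1_round (j : Fin (r + 1)) (hj : j ≠ 0) (i c p s y h : ℕ) (w : ℕ → Option T) :
    Ev (S5 U Hh Vv x) A5 ⟨.mul j, i, c, 0, p + 1, s, y, h, w⟩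
      ⟨.mul j, i, c, 0, p, s + c, y, h, w⟩ (2 * c + 3) := by
  have h1 : Ev (S5 U Hh Vv x) A5 ⟨.mul j, i, c, 0, p + 1, s, y, h, w⟩
      ⟨.ad1 j, i, c, 0, p, s, y, h, w⟩ 1 := by
    apply Ev.step
    · intro k
      simp [S5, hj]
    · simp [A5]
  have h2 := m1_ad1 U Hh Vv x j i p y h w c 0 s
  have h3 : Ev (S5 U Hh Vv x) A5 ⟨.ad1 j, i, 0, 0 + c, p, s + c, y, h, w⟩
      ⟨.ad2 j, i, 0, 0 + c, p, s + c, y, h, w⟩ 1 := by
    apply Ev.step
    · intro k
      simp [S5]
    · simp [A5]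
  have h4 := m1_ad2 U Hh Vv x j i p (s + c) y h w (0 + c) 0
  have h5 : Ev (S5 U Hh Vv x) A5 ⟨.ad2 j, i, 0 + (0 + c), 0, p, s + c, y, h, w⟩
      ⟨.mul j, i, 0 + (0 + c), 0, p, s + c, y, h, w⟩ 1 := by
    apply Ev.step
    · intro k
      simp [S5]
    · simp [A5]
  have h6 := (((h1.trans h2).trans h3).trans h4).trans h5
  have e1 : 0 + (0 + c) = c := by omega
  rw [e1] at h6
  exact h6.mono (by omega)

/-- the rounds of the multiplication -/
private theorem m1_rounds (j : Fin (r + 1)) (hj : j ≠ 0) (i c y h : ℕ) (w : ℕ → Option T) :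
    ∀ p s : ℕ, Ev (S5 U Hh Vv x) A5 ⟨.mul j, i, c, 0, p, s, y, h, w⟩
      ⟨.mul j, i, c, 0, 0, s + c * p, y, h, w⟩ (p * (2 * c + 3)) := by
  intro p
  induction p with
  | zero =>
    intro s
    have := Ev.refl (S := S5 U Hh Vv x) (A := A5)
      (⟨.mul j, i, c, 0, 0, s, y, h, w⟩ : K5 r T)
    simpa using this
  | succ p ih =>
    intro s
    have h2 := (m1_round U Hh Vv x j hj i c p s y h w).trans (ih (s + c))
    have e1 : s + c + c * p = s + c * (p + 1) := by ring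
    rw [e1] at h2
    exact h2.mono (le_of_eq (by ring))

end

theorem pf_m1 : J_M1 := by
  intro r T U Hh Vv x i c p j w hj
  have h1 := m1_rounds U Hh Vv x j hj i c 0 0 w p 0
  have h2 : Ev (S5 U Hh Vv x) A5 ⟨.mul j, i, c, 0, 0, 0 + c * p, 0, 0, w⟩
      ⟨.mv j, i, c, 0, 0, 0 + c * p, 0, 0, w⟩ 1 := by
    apply Ev.step
    · intro k
      simp [S5, hj]
    · simp [A5]
  have h3 := m1_mv U Hh Vv x j i c 0 0 0 w (0 + c * p) 0
  have h4 : Ev (S5 U Hh Vv x) A5 ⟨.mv j, i, c, 0, 0 + (0 + c * p), 0, 0, 0, w⟩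
      ⟨.mul (j - 1), i, c, 0, 0 + (0 + c * p), 0, 0, 0, w⟩ 1 := by
    apply Ev.step
    · intro k
      simp [S5]
    · simp [A5]
  have h5 := ((h1.trans h2).trans h3).trans h4
  have e1 : 0 + (0 + c * p) = c * p := by omega
  rw [e1] at h5
  refine h5.mono (le_of_eq ?_)
  ring

end Pool.Agent.H90.JS
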